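import Pool.Agent.N589.LL.Tasks

/-! LL/18 (project LL of helper589; helper282): the local component is unique up to isomorphism. -/

open scoped WithZero MatrixGroups MonoidAlgebra
open IsDedekindDomain RestrictedProduct

noncomputable section

namespace N589LL

namespace IsoAux

variable {G H : Type} [Group G] [Group H] {E E₁ E₂ : Type} [AddCommGroup E] [Module ℂ E]
  [AddCommGroup E₁] [Module ℂ E₁] [AddCommGroup E₂] [Module ℂ E₂]

lemma simple_of_irred {ρ : Representation ℂ G E} (h : Irred ρ) :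
    IsSimpleModule ℂ[G] ρ.asModule := by
  rw [← Representation.irreducible_iff_isSimpleModule_asModule]
  obtain ⟨hn, hW⟩ := h
  have : Nontrivial (Subrepresentation ρ) := by
    obtain ⟨x, hx⟩ := exists_ne (0 : E)
    refine ⟨⟨⊥, ⊤, fun hbt => hx ?_⟩⟩
    have h1 : x ∈ (⊤ : Subrepresentation ρ) := by
      change x ∈ (⊤ : Submodule ℂ E)
      trivial
    rw [← hbt] at h1
    change x ∈ (⊥ : Submodule ℂ E) at h1
    exact (Submodule.mem_bot ℂ).1 h1
  refine ⟨fun a => ?_⟩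
  rcases hW a.toSubmodule (fun g x hx => a.apply_mem_toSubmodule g hx) with h | h
  · left
    exact Subrepresentation.toSubmodule_injective h
  · right
    exact Subrepresentation.toSubmodule_injective h

/-- the intertwining map of a linear map -/
def im (ρ₁ : Representation ℂ G E₁) (ρ₂ : Representation ℂ G E₂) (T : E₁ →ₗ[ℂ] E₂)
    (hT : ∀ g x, T (ρ₁ g x) = ρ₂ g (T x)) : ρ₁.asModule →ₗ[ℂ[G]] ρ₂.asModule :=
  Representation.IntertwiningMap.equivLinearMapAsModule ρ₁ ρ₂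
    (T.intertwiningMap_of_isIntertwiningMap ρ₁ ρ₂ hT)

lemma im_apply (ρ₁ : Representation ℂ G E₁) (ρ₂ : Representation ℂ G E₂) (T : E₁ →ₗ[ℂ] E₂)
    (hT : ∀ g x, T (ρ₁ g x) = ρ₂ g (T x)) (x : E₁) : (im ρ₁ ρ₂ T hT : E₁ → E₂) x = T x := rfl

theorem iso (s : G →* H) (σ : Representation ℂ H E) (hσ : Irred σ)
    (hdec : ∀ h : H, ∃ (h' : H) (a : G), h = h' * s a ∧ ∀ b, h' * s b = s b * h')
    (τ₁ : Representation ℂ G E₁) (τ₂ : Representation ℂ G E₂) (h₁ : Irred τ₁) (h₂ : Irred τ₂)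
    (j₁ : E₁ →ₗ[ℂ] E) (hj₁ : Function.Injective j₁) (hj₁' : ∀ g x, j₁ (τ₁ g x) = σ (s g) (j₁ x))
    (j₂ : E₂ →ₗ[ℂ] E) (hj₂ : Function.Injective j₂) (hj₂' : ∀ g x, j₂ (τ₂ g x) = σ (s g) (j₂ x)) :
    ∃ e : E₁ ≃ₗ[ℂ] E₂, ∀ g x, e (τ₁ g x) = τ₂ g (e x) := by
  set ρ : Representation ℂ G E := σ.comp s with hρ
  have hs₁ : IsSimpleModule ℂ[G] τ₁.asModule := simple_of_irred h₁
  have hs₂ : IsSimpleModule ℂ[G] τ₂.asModule := simple_of_irred h₂
  -- the translates
  have hinj : ∀ c : H, Function.Injective (σ c) := by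
    intro c x y hxy
    have h3 : σ c⁻¹ (σ c x) = σ c⁻¹ (σ c y) := by rw [hxy]
    rw [← Module.End.mul_apply, ← Module.End.mul_apply, ← map_mul, inv_mul_cancel, map_one] at h3
    exact h3
  have hjc : ∀ c : {c : H // ∀ b, c * s b = s b * c}, ∀ g x,
      ((σ c.1).comp j₁) (τ₁ g x) = ρ g (((σ c.1).comp j₁) x) := by
    intro c g x
    have h3 : ρ g = σ (s g) := rfl
    rw [h3, LinearMap.comp_apply, LinearMap.comp_apply, hj₁', ← Module.End.mul_apply,
      ← Module.End.mul_apply, ← map_mul, ← map_mul, c.2 g]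
  set Jc : {c : H // ∀ b, c * s b = s b * c} → (τ₁.asModule →ₗ[ℂ[G]] ρ.asModule) :=
    fun c => im τ₁ ρ ((σ c.1).comp j₁) (hjc c) with hJc
  have hJi : ∀ c, Function.Injective (Jc c) := fun c => (hinj c.1).comp hj₁
  have hsimp : ∀ c, IsSimpleModule ℂ[G] (LinearMap.range (Jc c)) := fun c =>
    IsSimpleModule.congr (LinearEquiv.ofInjective (Jc c) (hJi c)).symm
  set S : Set (Submodule ℂ[G] ρ.asModule) := Set.range fun c => LinearMap.range (Jc c) with hS
  have hSs : ∀ m : S, IsSimpleModule ℂ[G] m.1 := by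
    rintro ⟨_, ⟨c, rfl⟩⟩
    exact hsimp c
  -- their sum is everything
  have htop : sSup S = ⊤ := by
    set W : Submodule ℂ E := ⨆ c : {c : H // ∀ b, c * s b = s b * c},
      (LinearMap.range j₁).map (σ c.1) with hW
    have hinv : ∀ h, ∀ x ∈ W, σ h x ∈ W := by
      intro h x hx
      have h4 : W.map (σ h) ≤ W := by
        rw [hW, Submodule.map_iSup]
        refine iSup_le fun c => ?_
        obtain ⟨h', a, hha, hcomm⟩ := hdec h
        have hc' : ∀ b, (h' * c.1) * s b = s b * (h' * c.1) := by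
          intro b
          rw [mul_assoc, c.2 b, ← mul_assoc, hcomm b, mul_assoc]
        refine le_trans ?_ (le_iSup (fun c : {c : H // ∀ b, c * s b = s b * c} =>
          (LinearMap.range j₁).map (σ c.1)) ⟨h' * c.1, hc'⟩)
        rintro _ ⟨_, ⟨_, ⟨x, rfl⟩, rfl⟩, rfl⟩
        refine ⟨j₁ (τ₁ a x), ⟨_, rfl⟩, ?_⟩
        rw [hj₁', ← Module.End.mul_apply, ← Module.End.mul_apply, ← map_mul, ← map_mul]
        congr 2
        rw [hha, mul_assoc, mul_assoc, c.2 a]
      exact h4 ⟨x, hx, rfl⟩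
    have hWt : W = ⊤ := by
      rcases hσ.2 W hinv with h | h
      · exfalso
        obtain ⟨x, hx⟩ := @exists_ne E₁ h₁.1 0
        have h5 : (j₁ x) ∈ W := by
          have h6 : (LinearMap.range j₁).map (σ 1) ≤ W :=
            le_iSup (fun c : {c : H // ∀ b, c * s b = s b * c} =>
              (LinearMap.range j₁).map (σ c.1)) ⟨1, fun b => by rw [one_mul, mul_one]⟩
          apply h6
          refine ⟨j₁ x, ⟨x, rfl⟩, ?_⟩
          rw [map_one]; rfl
        rw [h, Submodule.mem_bot] at h5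
        exact hx (hj₁ (by rw [h5, map_zero]))
      · exact h
    have hle : W ≤ (Subrepresentation.ofSubmodule' (sSup S)).toSubmodule := by
      refine iSup_le fun c => ?_
      rintro _ ⟨_, ⟨x, rfl⟩, rfl⟩
      have h7 : LinearMap.range (Jc c) ≤ sSup S := le_sSup ⟨c, rfl⟩
      exact h7 ⟨x, rfl⟩
    rw [eq_top_iff]
    intro x _
    have h8 : (x : E) ∈ W := by rw [hWt]; trivial
    exact hle h8
  -- the second one
  set J₂ : τ₂.asModule →ₗ[ℂ[G]] ρ.asModule := im τ₂ ρ j₂ hj₂' with hJ₂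
  have hJ₂i : Function.Injective J₂ := hj₂
  have hR : IsSimpleModule ℂ[G] (LinearMap.range J₂) :=
    IsSimpleModule.congr (LinearEquiv.ofInjective J₂ hJ₂i).symm
  obtain ⟨m, ⟨c, rfl⟩, ⟨e⟩⟩ := Submodule.linearEquiv_of_sSup_eq_top (LinearMap.range J₂) S htop
  set f : τ₁.asModule ≃ₗ[ℂ[G]] τ₂.asModule :=
    ((LinearEquiv.ofInjective (Jc c) (hJi c)).trans e.symm).trans
      (LinearEquiv.ofInjective J₂ hJ₂i).symm with hf
  set F := (Representation.IntertwiningMap.equivLinearMapAsModule τ₁ τ₂).symm f.toLinearMap with hF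
  refine ⟨LinearEquiv.ofBijective F.toLinearMap f.bijective, fun g x => ?_⟩
  have h9 := congrArg (fun T => T x) (F.isIntertwining' g)
  exact h9

end IsoAux

theorem TaskIso_proof : TaskIso := by
  rintro π v τ τ' ⟨j, hj, hj'⟩ ⟨k, hk, hk'⟩
  refine IsoAux.iso (sing v) π.ρ π.irr ?_ τ.ρ τ'.ρ τ.irr τ'.irr j hj hj' k hk hk'
  classical
  intro h
  have hs1 : ∀ b : Gv v, (sing v b) v = b := fun b => RestrictedProduct.mulSingle_eq_same ..
  have hs2 : ∀ (b : Gv v) (w : Place), w ≠ v → (sing v b) w = 1 := fun b w hw =>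
    RestrictedProduct.mulSingle_eq_of_ne _ _ hw
  refine ⟨h * (sing v (h v))⁻¹, h v, by rw [inv_mul_cancel_right], fun b => ?_⟩
  ext1 w
  have e1 : (h * (sing v (h v))⁻¹ * sing v b) w = h w * ((sing v (h v)) w)⁻¹ * (sing v b) w := rfl
  have e2 : (sing v b * (h * (sing v (h v))⁻¹)) w = (sing v b) w * (h w * ((sing v (h v)) w)⁻¹) := rfl
  rw [e1, e2]
  by_cases hw : w = v
  · subst hw
    rw [hs1, hs1, mul_inv_cancel, one_mul, mul_one]
  · rw [hs2 _ _ hw, hs2 _ _ hw, inv_one, mul_one, mul_one, one_mul]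

end N589LL
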